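import Pool.Agent.U79.GX.Stm

/-!
# Project GX, package BOX (helper780): the moments of the number of elements of the kernel in a box

Adaptation of `Pool/Agent/U79/MO/BOXM.lean`.
-/

set_option autoImplicit false
set_option linter.unusedVariables false

open scoped Classical

namespace Pool.Agent.U780.GX.BOX

open Finset hiding ext
open Pool.Agent.U115.GD
open Pool.Agent.Y703.CQ (nr sg prs HB S_EQ ext)
open Pool.Agent.U439.GD (Lb lb LN nr_self nr_symm nd_iff sum_un ext_sum HB_sub)
open Pool.Agent.U79.MO (SolA nk nk_box)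
open Pool.Agent.U79.GX (Cr wt)

/-- the number of `r`-tuples with all members in a set -/
theorem card_tuples {Z : Type} [Fintype Z] (r : ℕ) (P : Z → Prop) :
    ((univ.filter fun y : Fin r → Z => ∀ i, P (y i)).card : ℝ) = ((univ.filter P).card : ℝ) ^ r := by
  have h1 : (univ.filter fun y : Fin r → Z => ∀ i, P (y i)) =
      Fintype.piFinset fun _ : Fin r => univ.filter P := by
    ext y
    simp only [Finset.mem_filter, Finset.mem_univ, true_and, Fintype.mem_piFinset]
  rw [h1, Fintype.card_piFinset_const]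
  push_cast
  rfl

theorem t_BOX : Pool.Agent.U79.GX.S_BOX := by
  intro hEQ hLA G f r ι _ _ J1 C X κ S₀ hκ hCX hHB hS₀ hC hdis
  set R : ℝ := 2 ^ (prs J1).card * (κ * ∏ j, (X j : ℝ)) with hR
  have hR0 : 0 ≤ R := mul_nonneg (by positivity)
    (mul_nonneg hκ (Finset.prod_nonneg fun j _ => by positivity))
  -- facts on tuples
  have hinj : ∀ p ∈ Fintype.piFinset C, Function.Injective p := by
    intro p hp i j hij
    rw [Fintype.mem_piFinset] at hp
    by_contra hne
    have h1 := Finset.disjoint_left.1 (hdis i j hne) (hp i)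
    rw [hij] at h1
    exact h1 (hp j)
  have hJ : ∀ p ∈ Fintype.piFinset C, ∀ i, Hc G (p i) ↔ i ∈ J1 := by
    intro p hp i
    rw [Fintype.mem_piFinset] at hp
    exact (hC i _ (hp i)).2.2.2.symm
  have hd : ∀ p ∈ Fintype.piFinset C, ∀ i, p i ∉ S₀ := by
    intro p hp i
    rw [Fintype.mem_piFinset] at hp
    exact (hC i _ (hp i)).2.2.1
  have hpr : ∀ p ∈ Fintype.piFinset C, ∀ i, (p i).Prime ∧ p i ≠ 2 := by
    intro p hp i
    rw [Fintype.mem_piFinset] at hp
    exact ⟨(hC i _ (hp i)).1, (hC i _ (hp i)).2.1⟩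
  have hnz : Fintype.card ((S₀ → ZMod 2) × (ι → ZMod 2)) = 2 ^ (S₀.card + Fintype.card ι) := by
    rw [Fintype.card_prod, Fintype.card_fun, Fintype.card_fun, ZMod.card, Fintype.card_coe, pow_add]
  have hnzr : Fintype.card (Fin r → (S₀ → ZMod 2) × (ι → ZMod 2)) =
      2 ^ (r * (S₀.card + Fintype.card ι)) := by
    rw [Fintype.card_fun, hnz, Fintype.card_fin, ← pow_mul, mul_comm]
  have hCr : 0 ≤ Cr r := by
    unfold Cr
    positivity
  -- the part with given labels
  have h1 : ∀ β : ι → Lb S₀,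
      ∑ p ∈ (Fintype.piFinset C).filter (fun p => (fun i => lb f S₀ (p i)) = β),
        (nk G f (S₀ ∪ univ.image p) : ℝ) ^ r ≤
      Cr r * ∑ p ∈ (Fintype.piFinset C).filter (fun p => (fun i => lb f S₀ (p i)) = β),
        wt G r S₀ (univ.image p) + 2 ^ (r * (S₀.card + Fintype.card ι)) * R := by
    intro β
    by_cases hemp : ((Fintype.piFinset C).filter fun p => (fun i => lb f S₀ (p i)) = β) = ∅
    · rw [hemp, Finset.sum_empty, Finset.sum_empty]
      positivity
    obtain ⟨p₀, hp₀⟩ := Finset.nonempty_iff_ne_empty.2 hemp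
    rw [Finset.mem_filter] at hp₀
    obtain ⟨hp₀, hp₀β⟩ := hp₀
    set C' : ι → Finset ℕ := fun i => (C i).filter fun q => lb f S₀ q = β i with hC'
    have hpi : (Fintype.piFinset C).filter (fun p => (fun i => lb f S₀ (p i)) = β) =
        Fintype.piFinset C' := by
      ext p
      simp only [Finset.mem_filter, Fintype.mem_piFinset, hC']
      constructor
      · rintro ⟨h2, h3⟩ i
        exact ⟨h2 i, congrFun h3 i⟩
      · intro h2
        exact ⟨fun i => (h2 i).1, funext fun i => (h2 i).2⟩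
    set Q : (S₀ → ZMod 2) × (ι → ZMod 2) → (prs J1 → ZMod 2) → Prop := fun z α =>
      SolA (univ.filter fun u : S₀ => Hc G (u : ℕ))
      J1 (fun u v : S₀ => nr u v) (fun (u : S₀) l => (β l).1 u) (fun k (u : S₀) => (β k).2.1 u)
      (Pool.Agent.Y703.CQ.ext α) (fun u : S₀ => f u) (fun k => (β k).2.2) z with hQ
    -- the weight
    set w : ℝ := if LN G S₀ J1 β ∧ ∃ i, i ∉ J1 then 1 else (2 ^ (S₀.card + 1)) ^ r with hw
    have hwt : ∀ p ∈ Fintype.piFinset C', wt G r S₀ (univ.image p) = w := by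
      intro p hp
      rw [← hpi, Finset.mem_filter] at hp
      obtain ⟨hp, hl⟩ := hp
      have h2 : Nd G S₀ (univ.image p) ↔ LN G S₀ J1 β := by
        rw [nd_iff f (hJ p hp), hl]
      have h3 : (∃ q ∈ univ.image p, ¬ Hc G q) ↔ ∃ i, i ∉ J1 := by
        constructor
        · rintro ⟨q, hq, hq2⟩
          rw [Finset.mem_image] at hq
          obtain ⟨i, -, rfl⟩ := hq
          exact ⟨i, fun hi => hq2 ((hJ p hp i).2 hi)⟩
        · rintro ⟨i, hi⟩
          exact ⟨p i, Finset.mem_image_of_mem _ (Finset.mem_univ _), fun h => hi ((hJ p hp i).1 h)⟩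
      unfold wt
      rw [hw]
      simp only [h2, h3]
    have h2 : ∑ α : prs J1 → ZMod 2, ((univ.filter fun z => Q z α).card : ℝ) ^ r ≤
        w * (Cr r * 2 ^ (prs J1).card) := by
      obtain ⟨hLA1, hLA2⟩ := hLA r S₀ ι (univ.filter fun u : S₀ => Hc G (u : ℕ)) J1
        (fun u v => nr u v) (fun u l => (β l).1 u) (fun k u => (β k).2.1 u) (fun u => f u)
        (fun k => (β k).2.2)
      by_cases hc : LN G S₀ J1 β ∧ ∃ i, i ∉ J1
      · rw [hw, if_pos hc, one_mul]
        obtain ⟨hβ, hne⟩ := hc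
        have hA : ∀ u ∈ (univ.filter fun u : S₀ => Hc G (u : ℕ)), ∀ k ∈ J1,
            (β k).1 u = (β k).2.1 u := by
          intro u hu k hk
          have h3 := congrFun hp₀β k
          rw [← h3]
          exact nr_symm (hS₀ u u.2).1 (Finset.mem_filter.1 hu).2.1 (hpr p₀ hp₀ k).1
            (hpr p₀ hp₀ k).2
        have hB : ∀ w : S₀ → ZMod 2, (∀ u, u ∉ (univ.filter fun u : S₀ => Hc G (u : ℕ)) →
            w u = 0) → (∃ u, w u ≠ 0) → ∃ k ∈ J1, ∑ u, w u * (β k).2.1 u ≠ 0 := by
          rintro v hw0 ⟨u, hu⟩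
          have hu8 : Hc G (u : ℕ) := by
            by_contra h8
            exact hu (hw0 u fun hu' => h8 (Finset.mem_filter.1 hu').2)
          obtain ⟨k, hk, hk2⟩ := hβ v ⟨u, hu8, hu⟩
          refine ⟨k, hk, ?_⟩
          rw [Finset.sum_filter] at hk2
          intro h0
          apply hk2
          refine Eq.trans ?_ h0
          refine Finset.sum_congr rfl fun v' _ => ?_
          split_ifs with h8
          · rfl
          · rw [hw0 v' fun hv => h8 (Finset.mem_filter.1 hv).2, zero_mul]
        refine le_of_eq_of_le ?_ (hLA1 hne hA hB)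
        refine Finset.sum_congr rfl fun α _ =>
          congrArg (fun n : ℕ => (n : ℝ) ^ r) (congrArg Finset.card (Finset.ext fun z => ?_))
        simp only [Finset.mem_filter, Finset.mem_univ, true_and]
        rfl
      · rw [hw, if_neg hc]
        rw [Fintype.card_coe] at hLA2
        refine le_of_eq_of_le ?_ hLA2
        refine Finset.sum_congr rfl fun α _ =>
          congrArg (fun n : ℕ => (n : ℝ) ^ r) (congrArg Finset.card (Finset.ext fun z => ?_))
        simp only [Finset.mem_filter, Finset.mem_univ, true_and]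
        rfl
    set QQ : (Fin r → (S₀ → ZMod 2) × (ι → ZMod 2)) → (prs J1 → ZMod 2) → Prop :=
      fun y α => ∀ i, Q (y i) α with hQQ
    have h3 := fun y => hEQ ι J1 C' X κ hκ
      (fun i => (Finset.card_le_card (Finset.filter_subset _ _)).trans (hCX i))
      (HB_sub hHB fun i q => lb f S₀ q = β i) (QQ y)
    have h5 : (((Fintype.piFinset C').card : ℕ) : ℝ) = ∏ j, ((C' j).card : ℝ) := by
      rw [Fintype.card_piFinset]
      push_cast
      rfl
    set P : ℝ := ∏ j, ((C' j).card : ℝ) with hP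
    have hP0 : 0 ≤ P := Finset.prod_nonneg fun j _ => by positivity
    rw [hpi, Finset.sum_congr rfl hwt, Finset.sum_const, nsmul_eq_mul, h5]
    -- the sum over the tuples
    have h4 : ∀ p ∈ Fintype.piFinset C', (nk G f (S₀ ∪ univ.image p) : ℝ) ^ r =
        ∑ y : Fin r → (S₀ → ZMod 2) × (ι → ZMod 2),
          if QQ y (fun e => nr (p e.1.1) (p e.1.2)) then (1 : ℝ) else 0 := by
      intro p hp
      rw [← hpi, Finset.mem_filter] at hp
      obtain ⟨hp, hl⟩ := hp
      rw [nk_box f (hinj p hp) (hpr p hp) (hd p hp) (hJ p hp), Finset.sum_boole, ← card_tuples]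
      subst hl
      rfl
    rw [Finset.sum_congr rfl h4, Finset.sum_comm]
    have h6 : ∀ y : Fin r → (S₀ → ZMod 2) × (ι → ZMod 2), ∑ p ∈ Fintype.piFinset C',
        (if QQ y (fun e => nr (p e.1.1) (p e.1.2)) then (1 : ℝ) else 0) ≤
        ((univ.filter (QQ y)).card : ℝ) / 2 ^ (prs J1).card * P + R := by
      intro y
      rw [Finset.sum_boole]
      have h7 := (abs_sub_le_iff.1 (h3 y)).1
      rw [sub_le_iff_le_add'] at h7
      refine (le_of_eq_of_le (congrArg (fun n : ℕ => (n : ℝ))
        (congrArg Finset.card (Finset.ext fun α => ?_))) h7).trans (le_of_eq ?_)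
      · simp only [Finset.mem_filter]
      · rw [hR]
        congr!
    refine (Finset.sum_le_sum fun y _ => h6 y).trans ?_
    rw [Finset.sum_add_distrib, Finset.sum_const, Finset.card_univ, hnzr, nsmul_eq_mul,
      ← Finset.sum_mul, ← Finset.sum_div]
    have h8 : (∑ y, ((univ.filter (QQ y)).card : ℝ)) =
        ∑ α : prs J1 → ZMod 2, ((univ.filter fun z => Q z α).card : ℝ) ^ r := by
      have e1 : ∀ y, ((univ.filter (QQ y)).card : ℝ) =
          ∑ α : prs J1 → ZMod 2, if QQ y α then (1 : ℝ) else 0 := fun y => by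
        rw [Finset.sum_boole]
      have e2 : ∀ α : prs J1 → ZMod 2, ((univ.filter fun z => Q z α).card : ℝ) ^ r =
          ∑ y, if QQ y α then (1 : ℝ) else 0 := fun α => by
        rw [Finset.sum_boole, ← card_tuples]
      simp only [e1, e2]
      exact Finset.sum_comm
    have h7 : (∑ y, ((univ.filter (QQ y)).card : ℝ)) / 2 ^ (prs J1).card ≤ w * Cr r := by
      rw [div_le_iff₀ (by positivity), h8, mul_assoc]
      exact h2
    have h9 := mul_le_mul_of_nonneg_right h7 hP0
    push_cast
    have h10 : Cr r * (P * w) = w * Cr r * P := by ring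
    rw [h10]
    linarith
  -- sum over the labels
  have hfib : ∀ T : (ι → ℕ) → ℝ, ∑ p ∈ Fintype.piFinset C, T p =
      ∑ β : ι → Lb S₀, ∑ p ∈ (Fintype.piFinset C).filter (fun p => (fun i => lb f S₀ (p i)) = β),
        T p := by
    intro T
    rw [← Finset.sum_fiberwise_of_maps_to (g := fun (p : ι → ℕ) (i : ι) => lb f S₀ (p i))
      (t := (Finset.univ : Finset (ι → Lb S₀))) (fun p _ => Finset.mem_univ _)]
  rw [hfib, hfib fun p => wt G r S₀ (univ.image p), Finset.mul_sum]
  refine (Finset.sum_le_sum fun β _ => h1 β).trans ?_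
  rw [Finset.sum_add_distrib, Finset.sum_const, nsmul_eq_mul]
  have h5 : (((Finset.univ : Finset (ι → Lb S₀)).card : ℕ) : ℝ) ≤
      2 ^ ((2 * S₀.card + 1) * Fintype.card ι) := by
    have h6 : (Finset.univ : Finset (ι → Lb S₀)).card ≤ Fintype.card (ι → Lb S₀) :=
      Finset.card_le_univ _
    rw [Fintype.card_fun, Fintype.card_prod, Fintype.card_prod, Fintype.card_fun, ZMod.card,
      Fintype.card_coe, ← pow_succ, ← pow_add, ← pow_mul] at h6
    have h7 : (S₀.card + (S₀.card + 1)) * Fintype.card ι = (2 * S₀.card + 1) * Fintype.card ι := by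
      ring
    rw [h7] at h6
    exact_mod_cast h6
  have h6 : 0 ≤ (2 : ℝ) ^ (r * (S₀.card + Fintype.card ι)) * R := by positivity
  have h7 := mul_le_mul_of_nonneg_right h5 h6
  have h8 : (2 : ℝ) ^ ((2 * S₀.card + 1) * Fintype.card ι + (prs J1).card +
      r * (S₀.card + Fintype.card ι)) * (κ * ∏ j, (X j : ℝ)) =
      2 ^ ((2 * S₀.card + 1) * Fintype.card ι) *
        (2 ^ (r * (S₀.card + Fintype.card ι)) * R) := by
    rw [hR, pow_add, pow_add]
    ring
  rw [h8]
  linarith

end Pool.Agent.U780.GX.BOX
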